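import Mathlib
import Pool.Agent.Lib.MP_409048_lc.Reduce
import Pool.Agent.Lib.MP_409048_lc.NF
import Pool.Agent.Lib.MP_409048_lc.Member

set_option autoImplicit false

namespace Pool.Agent.Results.MP_409048_lc.Complete

open Pool.Agent.Lib.MP_409048_lc

/-- For every enumerated basis of the space of gauge functions, the set of codes of sets `I(C)`,
`C ⊆ ℝ` closed, is `Σ¹₂`-complete for continuous reductions. -/
theorem result (O : ℕ → Set Gauge) (hO : TopologicalSpace.IsTopologicalBasis (Set.range O)) :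
    IsSigma12 (realCodes O) ∧ ∀ A : Set (ℕ → ℕ), IsSigma12 A →
      ∃ r : (ℕ → ℕ) → (ℕ → ℕ), Continuous r ∧ A = r ⁻¹' realCodes O := by
  refine ⟨member' O hO, fun A hA => ?_⟩
  obtain ⟨T, h1, h2, h3, h4⟩ := normal_form' hA
  exact exists_reduction O hO h1 h2 h3 h4

end Pool.Agent.Results.MP_409048_lc.Complete
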