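import Mathlib
import Pool.Agent.Lib.S13.Rd

set_option autoImplicit false

namespace Pool.Agent.Results.MP_409048_lc.LevelThree

open Pool.Agent.Lib.MP_409048_lc Pool.Agent.Lib.S13

/-- For every enumerated basis of the space of gauge functions and each of the classes `G_δ`,
Borel and analytic, the set of `Σ⁰₂` codes of sets `I(E)` with `E ⊆ ℝ` in the class is
`Σ¹₃`-complete for continuous reductions. -/
theorem result (O : ℕ → Set Gauge) (hO : TopologicalSpace.IsTopologicalBasis (Set.range O))
    (Γ : Set ℝ → Prop)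
    (hΓ : Γ ∈ ({IsGδ, MeasurableSet, MeasureTheory.AnalyticSet} : Set (Set ℝ → Prop))) :
    IsSigma13 (codesOf O Γ) ∧ ∀ A : Set (ℕ → ℕ), IsSigma13 A →
      ∃ r : (ℕ → ℕ) → (ℕ → ℕ), Continuous r ∧ A = r ⁻¹' codesOf O Γ := by
  rcases hΓ with rfl | rfl | rfl
  · exact ⟨member_gd hO, fun _ => hard hO (fun _ => id) fun _ h => h.measurableSet.analyticSet⟩
  · exact ⟨member_borel hO, fun _ => hard hO (fun _ h => h.measurableSet) fun _ h => h.analyticSet⟩
  · exact ⟨member_an hO, fun _ => hard hO (fun _ h => h.measurableSet.analyticSet) fun _ => id⟩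

end Pool.Agent.Results.MP_409048_lc.LevelThree
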